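import Pool.Agent.Y223.G.Stm9
import Pool.Agent.Y86.G5.Rgin
import Pool.Agent.Y363.G.Rglu

/-!
# The inertia groups outside the vertex: two gradings
-/

set_option autoImplicit false

namespace Pool.Agent.Y872.H

open Pool.Agent.Y223.G
open Pool.Agent.Y86.G5 (im im_sub im_mul im_prime im_one im_pow up mem_up up_prime up_inter hmh
  hmh_apply exists_avoid)

section pos

variable {k K : Type} [CommRing k] [Field K] [Algebra k K]

/-- An ideal which contains the generators of positive degree contains all homogeneous elements of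
positive degree. -/
theorem pos_gen (S₀ : Set (LP K)) (R' : Subalgebra k (LP K)) (hR' : R' = Algebra.adjoin k S₀)
    (I : Ideal R') (hI : ∀ s ∈ S₀, ∃ (d : ℤ) (a : K), s = hm d a ∧ (0 < d → s ∈ im R' I))
    (f : LP K) (hf : f ∈ R') (d : ℤ) (hd : 0 < d) : hm d (f.coeff d) ∈ im R' I := by
  classical
  let S : Subalgebra k (LP K) :=
    { carrier := {f | ∀ d, hm d (f.coeff d) ∈ R' ∧ (0 < d → hm d (f.coeff d) ∈ im R' I)}
      mul_mem' := by
        intro f g hf hg d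
        have hexp : hm d ((f * g).coeff d) = ∑ a ∈ f.coeff.support, ∑ b ∈ g.coeff.support,
            hm d (if a + b = d then f.coeff a * g.coeff b else 0) := by
          conv_lhs => rw [eq_sum_hm f, eq_sum_hm g, Finset.sum_mul_sum,
            AddMonoidAlgebra.coeff_sum, Finsupp.finsetSum_apply]
          rw [← hmh_apply, map_sum]
          refine Finset.sum_congr rfl fun a _ => ?_
          rw [AddMonoidAlgebra.coeff_sum, Finsupp.finsetSum_apply, map_sum]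
          refine Finset.sum_congr rfl fun b _ => ?_
          rw [hm_mul, coeff_hm, hmh_apply]
        have hterm : ∀ a b : ℤ, a + b = d →
            hm d (f.coeff a * g.coeff b) = hm a (f.coeff a) * hm b (g.coeff b) := by
          intro a b hab
          rw [hm_mul, hab]
        constructor
        · rw [hexp]
          refine R'.sum_mem fun a _ => R'.sum_mem fun b _ => ?_
          split_ifs with h
          · rw [hterm a b h]
            exact R'.mul_mem (hf a).1 (hg b).1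
          · rw [hm_zero]
            exact R'.zero_mem
        · intro hd
          rw [hexp]
          refine sum_mem fun a _ => sum_mem fun b _ => ?_
          split_ifs with h
          · rw [hterm a b h]
            by_cases ha : 0 < a
            · rw [mul_comm]
              exact im_mul (hg b).1 ((hf a).2 ha)
            · exact im_mul (hf a).1 ((hg b).2 (by omega))
          · rw [hm_zero]
            exact zero_mem _
      add_mem' := by
        intro f g hf hg d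
        rw [AddMonoidAlgebra.coeff_add, Finsupp.add_apply, hm_add]
        exact ⟨R'.add_mem (hf d).1 (hg d).1, fun hd => add_mem ((hf d).2 hd) ((hg d).2 hd)⟩
      algebraMap_mem' := by
        intro r d
        rw [algebraMap_LP, coeff_hm]
        split_ifs with h
        · subst h
          exact ⟨R'.algebraMap_mem r, fun h => absurd h (lt_irrefl _)⟩
        · rw [hm_zero]
          exact ⟨R'.zero_mem, fun _ => zero_mem _⟩ }
  have key : ∀ (e : ℤ) (x : K), hm e x ∈ R' → (0 < e → hm e x ∈ im R' I) → hm e x ∈ S := by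
    intro e x h1 h2 d
    rw [coeff_hm]
    split_ifs with h
    · rw [← h]
      exact ⟨h1, h2⟩
    · rw [hm_zero]
      exact ⟨R'.zero_mem, fun _ => zero_mem _⟩
  have hle : R' ≤ S := by
    have h1 : R' = Algebra.adjoin k S₀ := hR'
    rw [h1, Algebra.adjoin_le_iff]
    intro f hf
    obtain ⟨e, x, rfl, h2⟩ := hI f hf
    refine key _ _ ?_ h2
    rw [hR']
    exact Algebra.subset_adjoin hf
  exact (hle hf d).2 hd

end pos

section two

variable {k K K₂ : Type} [CommRing k] [Field K] [Field K₂] [Algebra k K] [Algebra k K₂]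

/-- The embedding of the Laurent polynomials. -/
noncomputable def jj (ε : LP K →ₐ[k] K₂) : LP K →ₐ[k] LP K₂ :=
  AddMonoidAlgebra.mapAlgHom (R := k) ℤ (ε.comp (zer k K))

theorem jj_hm (ε : LP K →ₐ[k] K₂) (d : ℤ) (a : K) : jj ε (hm d a) = hm d (ε (hm 0 a)) :=
  AddMonoidAlgebra.mapAlgHom_single _ _ _

theorem LP_ind {P : LP K → Prop} (h0 : P 0) (hadd : ∀ f g, P f → P g → P (f + g))
    (hhm : ∀ d a, P (hm d a)) (f : LP K) : P f := by
  classical
  rw [eq_sum_hm f]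
  exact Finset.sum_induction _ P hadd h0 fun d _ => hhm _ _

theorem tl_jj {ε : LP K →ₐ[k] K₂} {r : K ≃ₐ[k] K} {r₂ : K₂ ≃ₐ[k] K₂}
    (h : ∀ w, r₂ (ε w) = ε (tl r w)) (f : LP K) : tl r₂ (jj ε f) = jj ε (tl r f) := by
  refine LP_ind (P := fun f => tl r₂ (jj ε f) = jj ε (tl r f)) ?_ ?_ ?_ f
  · simp only [map_zero]
  · intro f g hf hg
    simp only [map_add, hf, hg]
  · intro d a
    rw [jj_hm, tl_hm, tl_hm, jj_hm, h, tl_hm]

theorem jj_R2 (ε : LP K →ₐ[k] K₂) {R : Subalgebra k (LP K)} (hG : Gr R) (π : K) {f : LP K}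
    (hf : f ∈ R) : jj ε f ∈ R2 ε R π := by
  classical
  rw [eq_sum_hm f, map_sum]
  refine Subalgebra.sum_mem _ fun d _ => ?_
  rw [jj_hm]
  exact Algebra.subset_adjoin (Or.inl ⟨d, _, hG f hf d, rfl⟩)

theorem v_R2 (ε : LP K →ₐ[k] K₂) (R : Subalgebra k (LP K)) (π : K) :
    hm 0 (ε (hm 1 π)) ∈ R2 ε R π := Algebra.subset_adjoin (Or.inr (by simp))

theorem v'_R2 (ε : LP K →ₐ[k] K₂) (R : Subalgebra k (LP K)) (π : K) :
    hm 0 (ε (hm (-1) π⁻¹)) ∈ R2 ε R π := Algebra.subset_adjoin (Or.inr (by simp))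

theorem v_mul (ε : LP K →ₐ[k] K₂) {π : K} (hπ : π ≠ 0) :
    (hm 0 (ε (hm (-1) π⁻¹)) : LP K₂) * hm 0 (ε (hm 1 π)) = 1 := by
  rw [hm_mul, ← map_mul, hm_mul, inv_mul_cancel₀ hπ]
  have h1 : ((-1 : ℤ) + 1) = 0 := rfl
  rw [h1, hm_one, map_one, add_zero, hm_one]

end two

section dedekind

/-- Division by a uniformizer. -/
theorem div_unif {O : Type} [CommRing O] [IsDedekindDomain O] {𝔓 : Ideal O}
    (hm : 𝔓.IsMaximal) (h0 : 𝔓 ≠ ⊥) {π x : O} (h1 : π ∈ 𝔓) (h2 : π ∉ 𝔓 ^ 2) (l : ℕ)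
    (hx : x * π ∈ 𝔓 ^ (l + 1)) : x ∈ 𝔓 ^ l := by
  obtain ⟨J, hJ⟩ := Ideal.dvd_iff_le.2 ((Ideal.span_singleton_le_iff_mem 𝔓).2 h1)
  have hJ𝔓 : ¬ J ≤ 𝔓 := by
    intro h
    apply h2
    have h3 : π ∈ 𝔓 * J := by
      rw [← hJ]
      exact Ideal.mem_span_singleton_self π
    rw [pow_two]
    exact Ideal.mul_mono_right h h3
  have hcop : IsCoprime (𝔓 ^ l) J := by
    apply IsCoprime.pow_left
    rw [Ideal.isCoprime_iff_sup_eq]
    by_contra hne
    have h3 := hm.eq_of_le hne le_sup_left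
    exact hJ𝔓 (by rw [h3]; exact le_sup_right)
  have h3 : 𝔓 ^ (l + 1) ∣ Ideal.span {x} * (𝔓 * J) := by
    rw [← hJ, Ideal.span_singleton_mul_span_singleton, Ideal.dvd_span_singleton]
    exact hx
  have h4 : 𝔓 * 𝔓 ^ l ∣ 𝔓 * (Ideal.span {x} * J) := by
    have e1 : 𝔓 * 𝔓 ^ l = 𝔓 ^ (l + 1) := by rw [pow_succ']
    have e2 : 𝔓 * (Ideal.span {x} * J) = Ideal.span {x} * (𝔓 * J) := by ring
    rw [e1, e2]
    exact h3
  have h5 := (mul_dvd_mul_iff_left (show 𝔓 ≠ 0 from h0)).1 h4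
  have h6 := hcop.dvd_of_dvd_mul_right h5
  rwa [Ideal.dvd_span_singleton] at h6

end dedekind

theorem mem_RG {k O K G : Type} [CommRing k] [CommRing O] [Field K] [Group G]
    [Algebra O K] [Algebra k K] {ρ : G →* (K ≃ₐ[k] K)} {N : Type} {𝔔 : N → Ideal O}
    {p l : N → ℕ} {τ : N → G} {C : Subalgebra O K} {f : LP K} :
    f ∈ RG k ρ 𝔔 p l τ C ↔ f ∈ RR k 1 1 ⊤ 0 C ∧
    ∀ i, f ∈ RR k (ρ (τ i)) (p i) (𝔔 i) (l i) C := by
  unfold RG
  rw [Algebra.mem_inf, Algebra.mem_iInf]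

theorem t_REIN : S_RPRIN1 → S_RSTAB0 → S_REIN := by
  intro hP hS k O K K₂ G _ _ _ _ _ _ _ _ _ _ _ _ _ ε hε ρ ρ₂ hρ T N _ 𝔔 p l τ π hL C hC R hR Q
    hQ hv
  classical
  have hp : ∀ i, 0 < p i := fun i => (hL.ty i).1.pp.pos
  obtain ⟨R1, hR1⟩ : ∃ R1, R1 = RG k ρ 𝔔 p l τ C := ⟨_, rfl⟩
  rw [← hR1] at hR
  obtain ⟨ϖ, hϖ⟩ : ∃ ϖ, ϖ = algebraMap O K π := ⟨_, rfl⟩
  rw [← hϖ] at hR
  have hϖ0 : ϖ ≠ 0 := by
    rw [hϖ]
    exact (map_ne_zero_iff _ hL.inj).2 hL.p0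
  have hGr : Gr R1 := by
    intro f hf d
    rw [hR1, mem_RG] at hf ⊢
    exact ⟨RR_gr f hf.1 d, fun i => RR_gr f (hf.2 i) d⟩
  have hjR : ∀ f ∈ R1, jj ε f ∈ R := by
    intro f hf
    rw [hR]
    exact jj_R2 ε hGr ϖ hf
  have hO1 : ∀ o : O, hm 0 (algebraMap O K o) ∈ R1 := by
    intro o
    rw [hR1, mem_RG]
    exact ⟨RR_c one_pos (C.algebraMap_mem o), fun i => RR_c (hp i) (C.algebraMap_mem o)⟩
  obtain ⟨v, hvd⟩ : ∃ v : LP K₂, v = hm 0 (ε (hm 1 ϖ)) := ⟨_, rfl⟩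
  obtain ⟨v', hvd'⟩ : ∃ v' : LP K₂, v' = hm 0 (ε (hm (-1) ϖ⁻¹)) := ⟨_, rfl⟩
  have hvR : v ∈ R := by
    rw [hR, hvd]
    exact v_R2 ε R1 ϖ
  have hvR' : v' ∈ R := by
    rw [hR, hvd']
    exact v'_R2 ε R1 ϖ
  have hvv : v' * v = 1 := by
    rw [hvd, hvd']
    exact v_mul ε hϖ0
  -- the units
  have hun : ∀ g, ∃ w w' : O, T g π = w * π ∧ w' * w = 1 := by
    intro g
    obtain ⟨w, hw⟩ := hL.wi g
    obtain ⟨w2, hw2⟩ := hL.wi g⁻¹
    refine ⟨w, T g w2, hw, ?_⟩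
    have h1 : T g (T g⁻¹ π) = π := by
      have h2 : (T g * T g⁻¹) π = π := by
        rw [← map_mul, mul_inv_cancel, map_one]
        rfl
      exact h2
    rw [hw2, map_mul, hw] at h1
    have h3 : (T g w2 * w - 1) * π = 0 := by
      linear_combination h1
    rcases mul_eq_zero.1 h3 with h4 | h4
    · exact sub_eq_zero.1 h4
    · exact absurd h4 hL.p0
  have htj : ∀ g (d : ℤ) (o : O), tl (ρ₂ g) (jj ε (hm d (algebraMap O K o))) -
      jj ε (hm d (algebraMap O K o)) = jj ε (hm d (algebraMap O K (T g o - o))) := by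
    intro g d o
    rw [tl_jj (hρ g), tl_hm, hL.com, ← map_sub, ← hm_sub, ← map_sub]
  have htv : ∀ g (w : O), T g π = w * π →
      tl (ρ₂ g) v = jj ε (hm 0 (algebraMap O K w)) * v := by
    intro g w hw
    rw [hvd, tl_hm, hρ, tl_hm, jj_hm, hm_mul, ← map_mul, hm_mul, hϖ, hL.com, hw, map_mul,
      add_zero, zero_add]
  have htv' : ∀ g (w w' : O), T g π = w * π → w' * w = 1 →
      tl (ρ₂ g) v' = jj ε (hm 0 (algebraMap O K w')) * v' := by
    intro g w w' hw hww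
    have h1 : tl (ρ₂ g) v' * tl (ρ₂ g) v = 1 := by
      rw [← map_mul, hvv, map_one]
    rw [htv g w hw] at h1
    have h2 : jj ε (hm 0 (algebraMap O K w')) * jj ε (hm 0 (algebraMap O K w)) = 1 := by
      rw [← map_mul, hm_mul, ← map_mul, hww, map_one, add_zero, hm_one, map_one]
    calc tl (ρ₂ g) v' = tl (ρ₂ g) v' * (jj ε (hm 0 (algebraMap O K w')) *
          jj ε (hm 0 (algebraMap O K w))) * (v' * v) := by rw [h2, hvv, mul_one, mul_one]
      _ = (jj ε (hm 0 (algebraMap O K w')) * v') * (tl (ρ₂ g) v' *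
          (jj ε (hm 0 (algebraMap O K w)) * v)) := by ring
      _ = _ := by rw [h1, mul_one]
  -- the prime ideal of the base
  let φ : O →+* R := ((((jj ε).comp (zer k K) : K →ₐ[k] LP K₂) : K →+* LP K₂).comp
    (algebraMap O K)).codRestrict R (fun o => hjR _ (hO1 o))
  have hφ : ∀ o, o ∈ Q.comap φ ↔ jj ε (hm 0 (algebraMap O K o)) ∈ im R Q :=
    fun o => ⟨fun h => ⟨hjR _ (hO1 o), h⟩, fun h => h.2⟩
  have hqp : (Q.comap φ).IsPrime := Ideal.comap_isPrime φ Q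
  have hin : ∀ g, (∀ f ∈ R, ∃ h : tl (ρ₂ g) f - f ∈ R, (⟨tl (ρ₂ g) f - f, h⟩ : R) ∈ Q) →
      ∀ o, T g o - o ∈ Q.comap φ := by
    intro g hg o
    rw [hφ, ← htj]
    exact hg _ (hjR _ (hO1 o))
  have hin2 : ∀ g, (∀ f ∈ R, ∃ h : tl (ρ₂ g) f - f ∈ R, (⟨tl (ρ₂ g) f - f, h⟩ : R) ∈ Q) →
      ∀ w, T g π = w * π → w - 1 ∈ Q.comap φ := by
    intro g hg w hw
    rw [hφ]
    have h1 : tl (ρ₂ g) v - v ∈ im R Q := hg v hvR
    have h2 : jj ε (hm 0 (algebraMap O K (w - 1))) = v' * (tl (ρ₂ g) v - v) := by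
      rw [htv g w hw, map_sub, map_one, hm_sub, map_sub, hm_one, map_one]
      linear_combination (1 - jj ε (hm 0 (algebraMap O K w))) * hvv
    rw [h2]
    exact im_mul hvR' h1
  by_cases hi : ∀ i, Q.comap φ ≠ 𝔔 i
  · left
    intro g hg
    exact hL.al _ hqp hi g (hin g hg) (hin2 g hg)
  push Not at hi
  obtain ⟨i, hi⟩ := hi
  have hmi := hL.mx i
  have hQi : ∀ o, o ∈ 𝔔 i ↔ jj ε (hm 0 (algebraMap O K o)) ∈ im R Q := by
    intro o
    rw [← hi]
    exact hφ o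
  rw [hi] at hin hin2
  obtain ⟨hw, hτ, hz⟩ := hL.ty i
  right
  refine ⟨p i, τ i, hw.pp, hτ, fun g hg => hz g (hin g hg) (hin2 g hg), ?_⟩
  -- the graded algebra at the prime
  obtain ⟨R', hR'⟩ : ∃ R', R' = RR k (ρ (τ i)) (p i) (𝔔 i) (l i) C := ⟨_, rfl⟩
  have hle : R1 ≤ R' := by
    intro f hf
    rw [hR1] at hf
    rw [hR']
    exact (mem_RG.1 hf).2 i
  have hglu : ∀ s : O, (∀ j, j ≠ i → s ∈ 𝔔 j) → ∀ f ∈ R',
      ∃ n : ℕ, hm 0 (algebraMap O K s) ^ n * f ∈ R1 := by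
    intro s hs f hf
    rw [hR'] at hf
    have hf1 := Pool.Agent.Y363.G.le_one (hC (τ i)) hf
    obtain ⟨D, hD⟩ := Pool.Agent.Y363.G.exists_deg f
    refine ⟨D, ?_⟩
    rw [hR1, mem_RG]
    refine ⟨Subalgebra.mul_mem _ (Subalgebra.pow_mem _ (Pool.Agent.Y363.G.hm_alg one_pos s) _)
      hf1, fun j => ?_⟩
    by_cases hj : j = i
    · subst hj
      exact Subalgebra.mul_mem _ (Subalgebra.pow_mem _
        (Pool.Agent.Y363.G.hm_alg (hp j) s) _) hf
    · exact Pool.Agent.Y363.G.mult_mem (hp j) (hs j hj) hf1 hD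
  -- an invariant element of the other ideals
  obtain ⟨s0, hs0, hs0'⟩ := exists_avoid 𝔔 hL.mx hL.dj i
  have hit : ∀ (n : ℕ) (x : O), (T (τ i))^[n] x = T (τ i ^ n) x := by
    intro n
    induction n with
    | zero =>
      intro x
      rw [pow_zero, map_one]
      rfl
    | succ n ih =>
      intro x
      rw [Function.iterate_succ_apply, ih, pow_succ, map_mul]
      rfl
  set s1 : O := ∏ a ∈ Finset.range (p i), (T (τ i))^[a] s0 with hs1
  have hs1T : T (τ i) s1 = s1 := by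
    rw [hs1, map_prod]
    have h1 : ∀ a ∈ Finset.range (p i), T (τ i) ((T (τ i))^[a] s0) =
        (T (τ i))^[a + 1] s0 := fun a _ => by rw [Function.iterate_succ_apply']
    rw [Finset.prod_congr rfl h1]
    refine Pool.Agent.Y86.G5.prod_orbit (fun a => (T (τ i))^[a] s0) (hp i) ?_
    show (T (τ i))^[p i] s0 = (T (τ i))^[0] s0
    rw [hit, hit, hτ, pow_zero]
  have hs1i : s1 ∉ 𝔔 i := by
    intro h
    have := hmi.isPrime
    obtain ⟨a, -, ha⟩ := (Ideal.IsPrime.prod_mem_iff).1 h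
    have h1 : ∀ a : ℕ, (T (τ i))^[a] s0 ∉ 𝔔 i := by
      intro a
      induction a with
      | zero => exact hs0'
      | succ a ih =>
        intro h
        apply ih
        rw [Function.iterate_succ_apply'] at h
        have h2 : T (τ i) ((T (τ i))^[a] s0) - (T (τ i))^[a] s0 ∈ 𝔔 i :=
          Ideal.pow_le_self (Nat.succ_ne_zero _) (hw.dv _)
        have h3 := (𝔔 i).sub_mem h h2
        rwa [sub_sub_cancel] at h3
    exact h1 a ha
  have hs1j : ∀ j, j ≠ i → s1 ∈ 𝔔 j := by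
    intro j hj
    have h1 : (T (τ i))^[0] s0 ∣ s1 :=
      Finset.dvd_prod_of_mem (fun a => (T (τ i))^[a] s0) (Finset.mem_range.2 (hp i))
    exact (𝔔 j).mem_of_dvd h1 (hs0 j hj)
  obtain ⟨S1, hS1⟩ : ∃ S1 : LP K, S1 = hm 0 (algebraMap O K s1) := ⟨_, rfl⟩
  have hS1R : S1 ∈ R1 := by
    rw [hS1]
    exact hO1 s1
  have hgl1 : ∀ f ∈ R', ∃ n : ℕ, S1 ^ n * f ∈ R1 := by
    rw [hS1]
    exact hglu s1 hs1j
  have hS1T : tl (ρ₂ (τ i)) (jj ε S1) = jj ε S1 := by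
    rw [hS1, ← sub_eq_zero, htj, hs1T, sub_self, map_zero, hm_zero, map_zero]
  have hJR : jj ε S1 ∈ R := hjR _ hS1R
  -- the prime ideals
  let ψ : R1 →+* R := ((jj ε : LP K →+* LP K₂).comp R1.val.toRingHom).codRestrict R
    (fun f => hjR _ f.2)
  have hψ : ∀ f, f ∈ im R1 (Q.comap ψ) ↔ f ∈ R1 ∧ jj ε f ∈ im R Q :=
    fun f => ⟨fun h => ⟨h.1, hjR _ h.1, h.2⟩, fun h => ⟨h.1, h.2.2⟩⟩
  have hQ1 : (Q.comap ψ).IsPrime := Ideal.comap_isPrime ψ Q
  have hS1Q : S1 ∉ im R1 (Q.comap ψ) := by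
    rw [hψ, hS1]
    exact fun h => hs1i ((hQi s1).2 h.2)
  obtain ⟨Q', hQ'⟩ : ∃ Q', Q' = up R1 R' (Q.comap ψ) S1 hS1R hgl1 := ⟨_, rfl⟩
  have hQ'p : Q'.IsPrime := by
    rw [hQ']
    exact up_prime hQ1 _ _ hS1Q
  have hinter : ∀ f ∈ R1, f ∈ im R' Q' ↔ f ∈ im R1 (Q.comap ψ) := by
    intro f hf
    rw [hQ']
    exact up_inter hQ1 hS1Q hle hf
  have h1 : ∀ e ∈ 𝔔 i, ∃ h : hm 0 (algebraMap O K e) ∈ R', (⟨_, h⟩ : R') ∈ Q' := by
    intro e he
    have h2 : hm 0 (algebraMap O K e) ∈ im R' Q' :=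
      (hinter _ (hO1 e)).2 ((hψ _).2 ⟨hO1 e, (hQi e).1 he⟩)
    exact h2
  have h2 : ∃ (e : ℕ) (η : K) (he : hm e η ∈ R'), 0 < e ∧ (⟨hm e η, he⟩ : R') ∉ Q' := by
    by_contra hcon
    push Not at hcon
    obtain ⟨e, η, he, he0, heQ⟩ := hv
    apply heQ
    have h3 := pos_gen (k := k) _ R hR Q (fun s hs => ?_) (hm e η) he e (by exact_mod_cast he0)
    · rw [coeff_hm_same] at h3
      exact h3.2
    · rcases hs with ⟨d, a, had, rfl⟩ | hs
      · refine ⟨d, _, rfl, fun hd => ?_⟩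
        obtain ⟨d', rfl⟩ := Int.eq_ofNat_of_zero_le hd.le
        have h4 := hcon d' a (hle had) (by exact_mod_cast hd)
        have h5 : hm (d' : ℤ) a ∈ im R' Q' := ⟨hle had, h4⟩
        have h6 := ((hψ _).1 ((hinter _ had).1 h5)).2
        rwa [jj_hm] at h6
      · rcases hs with rfl | hs
        · exact ⟨0, _, rfl, fun h => absurd h (lt_irrefl _)⟩
        · rw [Set.mem_singleton_iff] at hs
          exact ⟨0, _, hs, fun h => absurd h (lt_irrefl _)⟩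
  have hst : ∀ f ∈ R', tl (ρ (τ i)) f ∈ R' ∧ hm (l i) 1 * (tl (ρ (τ i)) f - f) ∈ R' := by
    intro f hf
    rw [hR'] at hf ⊢
    exact hS k O K (p i) (ρ (τ i)) (T (τ i)) (𝔔 i) (l i) hw C (hC (τ i)) f hf
  have hep : ∀ e ∈ 𝔔 i ^ l i, hm (l i) (algebraMap O K e) ∈ R' := by
    intro e he
    rw [hR']
    exact RR_epow (hp i) (l i) he
  have hb : ∃ b ∈ R', ∃ h : hm (l i) 1 * (tl (ρ (τ i)) b - b) ∈ R',
      (⟨_, h⟩ : R') ∉ Q' := by
    clear hQ' hinter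
    subst hR'
    exact hP k O K (p i) (ρ (τ i)) (T (τ i)) (𝔔 i) (l i) hw C (hC (τ i)) Q' hQ'p h1 h2
  obtain ⟨b, hb, hbm, hbQ⟩ := hb
  have hl1 : jj ε (hm (l i) 1) = hm (l i) 1 := by
    rw [jj_hm, hm_one, map_one]
  -- the element outside the prime ideal
  obtain ⟨m, hm1⟩ := hgl1 _ hbm
  have hm2 : S1 ^ m * (hm (l i) 1 * (tl (ρ (τ i)) b - b)) ∉ im R1 (Q.comap ψ) := by
    intro h
    apply hbQ
    have h3 : hm (l i) 1 * (tl (ρ (τ i)) b - b) ∈ im R' Q' := by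
      rw [hQ', mem_up]
      exact ⟨hbm, m, h⟩
    exact h3.2
  have hm3 : jj ε (S1 ^ m * (hm (l i) 1 * (tl (ρ (τ i)) b - b))) =
      jj ε S1 ^ m * (hm (l i) 1 * (tl (ρ₂ (τ i)) (jj ε b) - jj ε b)) := by
    rw [map_mul, map_pow, map_mul, map_sub, hl1, tl_jj (hρ _)]
  have hm4 : jj ε S1 ^ m * (hm (l i) 1 * (tl (ρ₂ (τ i)) (jj ε b) - jj ε b)) ∈ R := by
    rw [← hm3]
    exact hjR _ hm1
  have hm5 : jj ε S1 ^ m * (hm (l i) 1 * (tl (ρ₂ (τ i)) (jj ε b) - jj ε b)) ∉ im R Q := by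
    rw [← hm3]
    exact fun h => hm2 ((hψ _).2 ⟨hm1, h⟩)
  have hJQ : jj ε S1 ∉ im R Q := fun h => hS1Q ((hψ _).2 ⟨hS1R, h⟩)
  -- the other elements
  have hunit : ∀ (u : LP K₂) (y : O), u ∈ R → y - 1 ∈ 𝔔 i ^ l i →
      tl (ρ₂ (τ i)) u = jj ε (hm 0 (algebraMap O K y)) * u →
      ∃ n : ℕ, jj ε S1 ^ n * (hm (l i) 1 * (tl (ρ₂ (τ i)) u - u)) ∈ R ∧
        jj ε S1 ^ n * tl (ρ₂ (τ i)) u ∈ R := by
    intro u y hu hy htu
    obtain ⟨n, hn⟩ := hgl1 _ (hep _ hy)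
    refine ⟨n, ?_, ?_⟩
    · have h3 : jj ε S1 ^ n * (hm (l i) 1 * (tl (ρ₂ (τ i)) u - u)) =
          jj ε (S1 ^ n * hm (l i) (algebraMap O K (y - 1))) * u := by
        have h4 : (hm (l i) (algebraMap O K (y - 1)) : LP K) =
            hm (l i) 1 * (hm 0 (algebraMap O K y) - 1) := by
          rw [← hm_one, ← hm_sub, hm_mul, one_mul, add_zero, map_sub, map_one]
        rw [h4, map_mul, map_pow, map_mul, map_sub, map_one, hl1, htu]
        ring
      rw [h3]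
      exact R.mul_mem (hjR _ hn) hu
    · rw [htu]
      exact R.mul_mem (R.pow_mem hJR n) (R.mul_mem (hjR _ (hO1 y)) hu)
  obtain ⟨w, w', hw1, hw2⟩ := hun (τ i)
  have hwl : w - 1 ∈ 𝔔 i ^ l i := by
    refine div_unif hmi (hL.ne i) (hL.pq i).1 (hL.pq i).2 (l i) ?_
    have h3 : (w - 1) * π = T (τ i) π - π := by
      rw [hw1]
      ring
    rw [h3]
    exact hw.dv π
  have hwl' : w' - 1 ∈ 𝔔 i ^ l i := by
    have h3 : w' - 1 = -w' * (w - 1) := by
      linear_combination hw2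
    rw [h3]
    exact (𝔔 i ^ l i).mul_mem_left _ hwl
  have hc : ∀ c ∈ R2 ε R1 ϖ, ∃ n : ℕ, jj ε S1 ^ n * (hm (l i) 1 * (tl (ρ₂ (τ i)) c - c)) ∈ R ∧
      jj ε S1 ^ n * tl (ρ₂ (τ i)) c ∈ R := by
    intro c hc
    have hRR : ∀ x, x ∈ R2 ε R1 ϖ → x ∈ R := by
      intro x hx
      rw [hR]
      exact hx
    unfold R2 at hc hRR
    induction hc using Algebra.adjoin_induction with
    | mem x hx =>
      rcases hx with ⟨d, a, had, rfl⟩ | hx
      · rw [← jj_hm]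
        obtain ⟨h3, h4⟩ := hst _ (hle had)
        obtain ⟨n3, h3⟩ := hgl1 _ h3
        obtain ⟨n4, h4⟩ := hgl1 _ h4
        have e3 := hjR _ h3
        have e4 := hjR _ h4
        rw [map_mul, map_pow, ← tl_jj (hρ _)] at e3
        rw [map_mul, map_pow, map_mul, map_sub, hl1, ← tl_jj (hρ _)] at e4
        refine ⟨n3 + n4, ?_, ?_⟩
        · rw [pow_add, mul_assoc]
          exact R.mul_mem (R.pow_mem hJR _) e4
        · rw [pow_add, mul_comm (jj ε S1 ^ n3), mul_assoc]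
          exact R.mul_mem (R.pow_mem hJR _) e3
      · rcases hx with hx | hx
        · have hx' : x = v := by rw [hvd]; exact hx
          rw [hx']
          exact hunit v w hvR hwl (htv _ w hw1)
        · rw [Set.mem_singleton_iff] at hx
          have hx' : x = v' := by rw [hvd']; exact hx
          rw [hx']
          exact hunit v' w' hvR' hwl' (htv' _ w w' hw1 hw2)
    | algebraMap r =>
      refine ⟨0, ?_, ?_⟩
      · rw [AlgEquiv.commutes, sub_self, mul_zero, mul_zero]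
        exact R.zero_mem
      · rw [AlgEquiv.commutes, pow_zero, one_mul]
        exact R.algebraMap_mem r
    | add x y _ _ hx hy =>
      obtain ⟨n, h3, h4⟩ := hx
      obtain ⟨n', h5, h6⟩ := hy
      refine ⟨n + n', ?_, ?_⟩
      · have e : jj ε S1 ^ (n + n') * (hm (l i) 1 * (tl (ρ₂ (τ i)) (x + y) - (x + y))) =
            jj ε S1 ^ n' * (jj ε S1 ^ n * (hm (l i) 1 * (tl (ρ₂ (τ i)) x - x))) +
            jj ε S1 ^ n * (jj ε S1 ^ n' * (hm (l i) 1 * (tl (ρ₂ (τ i)) y - y))) := by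
          rw [map_add]
          ring
        rw [e]
        exact R.add_mem (R.mul_mem (R.pow_mem hJR _) h3) (R.mul_mem (R.pow_mem hJR _) h5)
      · have e : jj ε S1 ^ (n + n') * tl (ρ₂ (τ i)) (x + y) =
            jj ε S1 ^ n' * (jj ε S1 ^ n * tl (ρ₂ (τ i)) x) +
            jj ε S1 ^ n * (jj ε S1 ^ n' * tl (ρ₂ (τ i)) y) := by
          rw [map_add]
          ring
        rw [e]
        exact R.add_mem (R.mul_mem (R.pow_mem hJR _) h4) (R.mul_mem (R.pow_mem hJR _) h6)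
    | mul x y hx0 hy0 hx hy =>
      obtain ⟨n, h3, h4⟩ := hx
      obtain ⟨n', h5, h6⟩ := hy
      refine ⟨n + n', ?_, ?_⟩
      · have e : jj ε S1 ^ (n + n') * (hm (l i) 1 * (tl (ρ₂ (τ i)) (x * y) - (x * y))) =
            (jj ε S1 ^ n * (hm (l i) 1 * (tl (ρ₂ (τ i)) x - x))) *
              (jj ε S1 ^ n' * tl (ρ₂ (τ i)) y) +
            x * (jj ε S1 ^ n * (jj ε S1 ^ n' * (hm (l i) 1 * (tl (ρ₂ (τ i)) y - y)))) := by
          rw [map_mul]
          ring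
        rw [e]
        exact R.add_mem (R.mul_mem h3 h6)
          (R.mul_mem (hRR x hx0) (R.mul_mem (R.pow_mem hJR _) h5))
      · have e : jj ε S1 ^ (n + n') * tl (ρ₂ (τ i)) (x * y) =
            (jj ε S1 ^ n * tl (ρ₂ (τ i)) x) * (jj ε S1 ^ n' * tl (ρ₂ (τ i)) y) := by
          rw [map_mul]
          ring
        rw [e]
        exact R.mul_mem h4 h6
  obtain ⟨n, hn⟩ := hgl1 b hb
  have hn' := hjR _ hn
  rw [map_mul, map_pow] at hn'
  refine ⟨jj ε S1 ^ n * jj ε b, hn', fun c hcR => ?_⟩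
  obtain ⟨m', hm', -⟩ := hc c (by rw [← hR]; exact hcR)
  have hs2 : jj ε S1 ^ (n + m') * (jj ε S1 ^ m *
      (hm (l i) 1 * (tl (ρ₂ (τ i)) (jj ε b) - jj ε b))) ∈ R :=
    R.mul_mem (R.pow_mem hJR _) hm4
  refine ⟨_, hs2, ?_, jj ε S1 ^ m * (jj ε S1 ^ m' * (hm (l i) 1 * (tl (ρ₂ (τ i)) c - c))),
    R.mul_mem (R.pow_mem hJR _) hm', ?_⟩
  · intro h
    have h3 : jj ε S1 ^ (n + m') * (jj ε S1 ^ m *
      (hm (l i) 1 * (tl (ρ₂ (τ i)) (jj ε b) - jj ε b))) ∈ im R Q := ⟨hs2, h⟩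
    rcases im_prime hQ (R.pow_mem hJR _) hm4 h3 with h4 | h4
    · exact im_pow hQ hJR hJQ _ h4
    · exact hm5 h4
  · have h3 : tl (ρ₂ (τ i)) (jj ε S1 ^ n * jj ε b) - jj ε S1 ^ n * jj ε b =
        jj ε S1 ^ n * (tl (ρ₂ (τ i)) (jj ε b) - jj ε b) := by
      rw [map_mul, map_pow, hS1T]
      ring
    rw [h3]
    ring

end Pool.Agent.Y872.H
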